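import Pool.Agent.W314.BA.Stm

/-! MP_f2742c_an: the second moment of the cocycle, reduction to `GrowHyp`. -/

set_option autoImplicit false

open MeasureTheory Set Filter Topology Real

namespace Pool.Agent.W135.BA

open Pool.Agent.W745 (NN FR HM kk dg)
open Pool.Agent.W314.BA

noncomputable section

lemma kk_continuous : Continuous (kk : ℝ → G) := by
  apply Continuous.subtype_mk (f := fun t => (kk t).1) (h := ?_)
  refine continuous_matrix fun i j => ?_
  fin_cases i <;> fin_cases j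
  · show Continuous fun t => (kk t).1 0 0
    simp only [Pool.Agent.W745.kk_00]; fun_prop
  · show Continuous fun t => (kk t).1 0 1
    simp only [Pool.Agent.W745.kk_01]; fun_prop
  · show Continuous fun t => (kk t).1 1 0
    simp only [Pool.Agent.W745.kk_10]; fun_prop
  · show Continuous fun t => (kk t).1 1 1
    simp only [Pool.Agent.W745.kk_11]; fun_prop

lemma dg_continuous : Continuous (dg : ℝ → G) := by
  apply Continuous.subtype_mk (f := fun t => (dg t).1) (h := ?_)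
  refine continuous_matrix fun i j => ?_
  fin_cases i <;> fin_cases j
  · show Continuous fun t => (dg t).1 0 0
    simp only [Pool.Agent.W745.dg_00]; fun_prop
  · show Continuous fun t => (dg t).1 0 1
    simp only [Pool.Agent.W745.dg_01]; fun_prop
  · show Continuous fun t => (dg t).1 1 0
    simp only [Pool.Agent.W745.dg_10]; fun_prop
  · show Continuous fun t => (dg t).1 1 1
    simp only [Pool.Agent.W745.dg_11]; fun_prop

lemma kk_pi : kk π = (-1 : G) := by
  apply Pool.Agent.W745.sl2_ext <;> simp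

lemma dg_inv (s : ℝ) : (dg s)⁻¹ = kk (π / 2) * dg s * kk (-(π / 2)) := by
  apply Pool.Agent.W745.sl2_ext <;> simp

lemma hh_dkd (s φ : ℝ) : hh (dg s * kk φ * dg s) =
    cosh (2 * s) ^ 2 + (cosh (2 * s) ^ 2 - 1) * cos (2 * φ) := by
  rw [hh_eq]
  simp only [Pool.Agent.W745.mul_00, Pool.Agent.W745.mul_01, Pool.Agent.W745.mul_10,
    Pool.Agent.W745.mul_11, Pool.Agent.W745.dg_00, Pool.Agent.W745.dg_01, Pool.Agent.W745.dg_10,
    Pool.Agent.W745.dg_11, Pool.Agent.W745.kk_00, Pool.Agent.W745.kk_01, Pool.Agent.W745.kk_10,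
    Pool.Agent.W745.kk_11]
  have h1 : exp (-s) = (exp s)⁻¹ := Real.exp_neg s
  have h2 : cosh (2 * s) = (exp s ^ 2 + (exp s ^ 2)⁻¹) / 2 := by
    rw [Real.cosh_eq, Real.exp_neg, two_mul, Real.exp_add]
    ring
  have h3 : cos (2 * φ) = 2 * cos φ ^ 2 - 1 := Real.cos_two_mul φ
  have h4 : sin φ ^ 2 = 1 - cos φ ^ 2 := Real.sin_sq φ
  rw [h1, h2, h3]
  have hne : exp s ≠ 0 := (Real.exp_pos s).ne'
  field_simp
  ring_nf
  simp only [h4]
  ring

/-- Minkowski inequality for bounded functions -/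
lemma minkowski {Y : Type} [MeasurableSpace Y] (μ : Measure Y) [IsProbabilityMeasure μ]
    {f g : Y → ℝ} (hf : Integrable (fun y => f y ^ 2) μ) (hg : Integrable (fun y => g y ^ 2) μ)
    (hfg : Integrable (fun y => f y * g y) μ) :
    √(∫ y, (f y + g y) ^ 2 ∂μ) ≤ √(∫ y, f y ^ 2 ∂μ) + √(∫ y, g y ^ 2 ∂μ) := by
  set A := ∫ y, f y ^ 2 ∂μ with hA
  set B := ∫ y, f y * g y ∂μ with hB
  set D := ∫ y, g y ^ 2 ∂μ with hD
  have hexp : ∀ t : ℝ, ∫ y, (f y + t * g y) ^ 2 ∂μ = A + 2 * t * B + t ^ 2 * D := by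
    intro t
    have h1 : ∀ y, (f y + t * g y) ^ 2 = f y ^ 2 + (2 * t) * (f y * g y) + t ^ 2 * g y ^ 2 := by
      intro y; ring
    simp_rw [h1]
    have e1 : Integrable (fun y => f y ^ 2 + (2 * t) * (f y * g y)) μ :=
      hf.add (hfg.const_mul _)
    rw [integral_add e1 (hg.const_mul _),
      integral_add hf (hfg.const_mul _), integral_const_mul, integral_const_mul]
  have hA0 : 0 ≤ A := integral_nonneg fun y => sq_nonneg _
  have hD0 : 0 ≤ D := integral_nonneg fun y => sq_nonneg _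
  have hdisc : discrim D (2 * B) A ≤ 0 := by
    apply discrim_le_zero
    intro t
    have h2 := hexp t
    have h3 : 0 ≤ ∫ y, (f y + t * g y) ^ 2 ∂μ := integral_nonneg fun y => sq_nonneg _
    rw [h2] at h3
    nlinarith
  have hBB : B ^ 2 ≤ A * D := by
    unfold discrim at hdisc
    nlinarith
  have h1 := hexp 1
  simp only [one_mul, mul_one, one_pow] at h1
  rw [h1]
  have hBle : B ≤ √A * √D := by
    rw [← Real.sqrt_mul hA0]
    exact (le_abs_self B).trans (Real.abs_le_sqrt hBB)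
  rw [Real.sqrt_le_left (by positivity)]
  nlinarith [Real.sq_sqrt hA0, Real.sq_sqrt hD0]

section main

variable {Y : Type} [MeasurableSpace Y]

/-- bounded measurable real functions -/
def BR (f : Y → ℝ) : Prop := Measurable f ∧ ∃ C : ℝ, 0 ≤ C ∧ ∀ y, |f y| ≤ C

lemma BR.mul {f g : Y → ℝ} (hf : BR f) (hg : BR g) : BR (fun y => f y * g y) := by
  obtain ⟨hf1, C, hC, hf2⟩ := hf
  obtain ⟨hg1, D, hD, hg2⟩ := hg
  refine ⟨hf1.mul hg1, C * D, mul_nonneg hC hD, fun y => ?_⟩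
  rw [abs_mul]
  exact mul_le_mul (hf2 y) (hg2 y) (abs_nonneg _) hC

lemma BR.sq {f : Y → ℝ} (hf : BR f) : BR (fun y => f y ^ 2) := by
  simp_rw [pow_two]; exact hf.mul hf

lemma BR.integrable {f : Y → ℝ} (hf : BR f) (μ : Measure Y) [IsFiniteMeasure μ] :
    Integrable f μ := by
  obtain ⟨hf1, C, hC, hf2⟩ := hf
  exact Integrable.of_bound hf1.aestronglyMeasurable C (Eventually.of_forall hf2)

variable [MulAction G Y] {μ : Measure Y} {c : G → Y → ℤ}

/-- average of the cocycle over the rotations -/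
def vv (c : G → Y → ℤ) (y : Y) : ℝ := π⁻¹ * ∫ a in (0:ℝ)..π, (c (kk a) y : ℝ)

/-- the normalised cocycle -/
def ct (c : G → Y → ℤ) (g : G) (y : Y) : ℝ := c g y + vv c (g • y) - vv c y

lemma c_one (hS : Sys μ c) (y : Y) : c 1 y = 0 := by
  have := hS.coc 1 1 y
  rw [mul_one, one_smul] at this
  omega

lemma c_kk_meas (hS : Sys μ c) : Measurable (fun p : ℝ × Y => (c (kk p.1) p.2 : ℝ)) := by
  have h1 : Measurable (fun p : ℝ × Y => ((kk p.1 : G), p.2)) :=
    (kk_continuous.measurable.comp measurable_fst).prodMk measurable_snd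
  exact (measurable_of_countable (fun n : ℤ => (n : ℝ))).comp (hS.c_meas.comp h1)

lemma vv_meas (hS : Sys μ c) : Measurable (vv c) := by
  unfold vv
  apply Measurable.const_mul
  simp_rw [intervalIntegral.integral_of_le Real.pi_pos.le]
  have h := (c_kk_meas hS).stronglyMeasurable
  exact (h.integral_prod_left' (μ := volume.restrict (Ioc 0 π))).measurable

lemma vv_bdd (hS : Sys μ c) : ∃ V : ℝ, 0 ≤ V ∧ ∀ y, |vv c y| ≤ V := by
  obtain ⟨C, hC⟩ := hS.bdd 1
  refine ⟨|(C:ℝ)|, abs_nonneg _, fun y => ?_⟩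
  have h1 : ‖∫ a in (0:ℝ)..π, (c (kk a) y : ℝ)‖ ≤ |(C:ℝ)| * |π - 0| := by
    apply intervalIntegral.norm_integral_le_of_norm_le_const
    intro a _
    have h2 := hC (kk a) (by show hh _ ≤ 1; rw [hh_kk]) y
    rw [Real.norm_eq_abs]
    calc |(c (kk a) y : ℝ)| ≤ C := by exact_mod_cast h2
      _ ≤ |(C:ℝ)| := le_abs_self _
  rw [Real.norm_eq_abs, sub_zero, abs_of_pos Real.pi_pos] at h1
  unfold vv
  rw [abs_mul, abs_of_pos (inv_pos.2 Real.pi_pos), inv_mul_le_iff₀ Real.pi_pos]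
  linarith

lemma vv_BR (hS : Sys μ c) : BR (vv c) := ⟨vv_meas hS, vv_bdd hS⟩

lemma c_kk_per (hS : Sys μ c) (y : Y) (a : ℝ) : c (kk (a + π)) y = c (kk a) y := by
  have := hS.coc (kk a) (kk π) y
  rw [← Pool.Agent.W745.kk_add, kk_pi, hS.neg_smul, hS.c_neg, add_zero] at this
  exact this

lemma shift_avg {f : ℝ → ℝ} (hf : ∀ a, f (a + π) = f a) (b : ℝ) :
    ∫ a in (0:ℝ)..π, f (a + b) = ∫ a in (0:ℝ)..π, f a := by
  rw [intervalIntegral.integral_comp_add_right f]
  have hper : Function.Periodic f π := hf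
  have := hper.intervalIntegral_add_eq b 0
  rw [zero_add] at this
  rw [zero_add, add_comm π b, this]

lemma vv_kk (hS : Sys μ c) (b : ℝ) (y : Y) : vv c (kk b • y) = vv c y - c (kk b) y := by
  have h1 : ∀ a, (c (kk a) (kk b • y) : ℝ) = c (kk (a + b)) y - c (kk b) y := by
    intro a
    have := hS.coc (kk a) (kk b) y
    rw [← Pool.Agent.W745.kk_add] at this
    rw [this]; push_cast; ring
  have hm : Measurable (fun a : ℝ => (c (kk (a + b)) y : ℝ)) := by
    have h2 : Measurable (fun a : ℝ => ((a + b, y) : ℝ × Y)) := by fun_prop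
    exact (c_kk_meas hS).comp h2
  have hint : IntervalIntegrable (fun a : ℝ => (c (kk (a + b)) y : ℝ)) volume 0 π := by
    obtain ⟨C, hC⟩ := hS.bdd 1
    rw [intervalIntegrable_iff, uIoc_of_le Real.pi_pos.le]
    refine Integrable.of_bound hm.aestronglyMeasurable (C : ℝ) (Eventually.of_forall fun a => ?_)
    have h2 := hC (kk (a + b)) (by show hh _ ≤ 1; rw [hh_kk]) y
    rw [Real.norm_eq_abs]
    exact_mod_cast h2
  unfold vv
  simp_rw [h1]
  rw [intervalIntegral.integral_sub hint intervalIntegrable_const, intervalIntegral.integral_const,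
    shift_avg (f := fun a => (c (kk a) y : ℝ)) (fun a => by simp only [c_kk_per hS])]
  rw [smul_eq_mul, sub_zero, mul_sub, ← mul_assoc, inv_mul_cancel₀ Real.pi_pos.ne', one_mul]

lemma ct_mul (hS : Sys μ c) (g h : G) (y : Y) :
    ct c (g * h) y = ct c g (h • y) + ct c h y := by
  unfold ct; rw [hS.coc, mul_smul]; push_cast; ring

lemma ct_kk (hS : Sys μ c) (b : ℝ) (y : Y) : ct c (kk b) y = 0 := by
  unfold ct; rw [vv_kk hS]; ring

lemma ct_one (hS : Sys μ c) (y : Y) : ct c 1 y = 0 := by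
  unfold ct; rw [c_one hS, one_smul]; simp

lemma ct_meas (hS : Sys μ c) : Measurable (fun p : G × Y => ct c p.1 p.2) := by
  unfold ct
  have h1 : Measurable (fun p : G × Y => (c p.1 p.2 : ℝ)) :=
    (measurable_of_countable (fun n : ℤ => (n : ℝ))).comp hS.c_meas
  have h2 : Measurable (fun p : G × Y => vv c (p.1 • p.2)) := (vv_meas hS).comp hS.smul_meas
  have h3 : Measurable (fun p : G × Y => vv c p.2) := (vv_meas hS).comp measurable_snd
  exact (h1.add h2).sub h3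

lemma ct_bdd (hS : Sys μ c) (x : ℝ) : ∃ C : ℝ, 0 ≤ C ∧ ∀ g ∈ Bx x, ∀ y, |ct c g y| ≤ C := by
  obtain ⟨C, hC⟩ := hS.bdd x
  obtain ⟨V, hV, hv⟩ := vv_bdd hS
  refine ⟨|(C:ℝ)| + 2 * V, by positivity, fun g hg y => ?_⟩
  have h1 : |(c g y : ℝ)| ≤ C := by exact_mod_cast hC g hg y
  have h2 := hv (g • y)
  have h3 := hv y
  have h4 := le_abs_self (C : ℝ)
  unfold ct
  rw [abs_le] at *
  constructor <;> linarith [h1.1, h1.2, h2.1, h2.2, h3.1, h3.2]

lemma ct_BR (hS : Sys μ c) (g : G) : BR (fun y => ct c g y) := by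
  obtain ⟨C, hC, h⟩ := ct_bdd hS (hh g)
  have h2 : Measurable (fun y : Y => (g, y)) := by fun_prop
  exact ⟨(ct_meas hS).comp h2, C, hC, h g (show hh g ≤ hh g from le_refl _)⟩

lemma BR.smul (hS : Sys μ c) (g : G) {f : Y → ℝ} (hf : BR f) : BR (fun y => f (g • y)) := by
  obtain ⟨hf1, C, hC, hf2⟩ := hf
  exact ⟨hf1.comp (hS.mp g).measurable, C, hC, fun y => hf2 _⟩

lemma integral_smul_eq (hS : Sys μ c) (g : G) {f : Y → ℝ} (hf : BR f) :
    ∫ y, f (g • y) ∂μ = ∫ y, f y ∂μ := by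
  have h := hS.mp g
  have h2 : ∫ y, f y ∂(Measure.map (fun y : Y => g • y) μ) = ∫ y, f (g • y) ∂μ :=
    integral_map h.measurable.aemeasurable hf.1.aestronglyMeasurable
  rw [← h2, h.map_eq]

/-- second moment of the normalised cocycle -/
def SS (μ : Measure Y) (c : G → Y → ℤ) (g : G) : ℝ := ∫ y, ct c g y ^ 2 ∂μ

lemma SS_nonneg (g : G) : 0 ≤ SS μ c g := integral_nonneg fun _ => sq_nonneg _

lemma SS_meas (hS : Sys μ c) : Measurable (SS μ c) := by
  have := hS.prob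
  have h := ((ct_meas hS).pow_const 2).stronglyMeasurable
  exact (h.integral_prod_right' (ν := μ)).measurable

lemma SS_kk_mul (hS : Sys μ c) (a : ℝ) (g : G) : SS μ c (kk a * g) = SS μ c g := by
  unfold SS
  simp_rw [ct_mul hS, ct_kk hS, zero_add]

lemma SS_mul_kk (hS : Sys μ c) (g : G) (a : ℝ) : SS μ c (g * kk a) = SS μ c g := by
  unfold SS
  simp_rw [ct_mul hS, ct_kk hS, add_zero]
  exact integral_smul_eq hS (kk a) (ct_BR hS g).sq

/-- the function of the displacement -/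
def Psi (μ : Measure Y) (c : G → Y → ℤ) (t : ℝ) : ℝ :=
  if 1 ≤ t then SS μ c (dg (arcosh t / 2)) else 0

lemma Psi_hh (hS : Sys μ c) (g : G) : Psi μ c (hh g) = SS μ c g := by
  obtain ⟨θ₁, s, θ₂, hs, rfl⟩ := cartan g
  have h2 : hh (kk θ₁ * dg s * kk θ₂) = Real.cosh (2 * s) := by
    rw [hh_mul_kk, hh_kk_mul, hh_dg]
  rw [h2]
  unfold Psi
  rw [if_pos (Real.one_le_cosh _), Real.arcosh_cosh (by positivity), SS_mul_kk hS, SS_kk_mul hS]
  congr 2
  ring

lemma tri (hS : Sys μ c) (g h : G) :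
    √(Psi μ c (hh (g * h))) ≤ √(Psi μ c (hh g)) + √(Psi μ c (hh h)) := by
  have := hS.prob
  rw [Psi_hh hS, Psi_hh hS, Psi_hh hS]
  have h1 : SS μ c (g * h) = ∫ y, (ct c g (h • y) + ct c h y) ^ 2 ∂μ := by
    unfold SS; simp_rw [ct_mul hS]
  have h2 : SS μ c g = ∫ y, (ct c g (h • y)) ^ 2 ∂μ :=
    (integral_smul_eq hS h (ct_BR hS g).sq).symm
  have hB1 : BR (fun y => ct c g (h • y)) := BR.smul hS h (ct_BR hS g)
  have hB2 := ct_BR hS h
  rw [h1, h2]
  exact minkowski μ (hB1.sq.integrable μ) (hB2.sq.integrable μ) ((hB1.mul hB2).integrable μ)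

lemma fub_int (hS : Sys μ c) {F : ℝ × Y → ℝ} (hF : Measurable F) {C : ℝ} (hC0 : 0 ≤ C)
    (hC : ∀ p, |F p| ≤ C) {h : Y → ℝ} (hh : BR h) :
    Integrable (fun p : ℝ × Y => F p * h p.2) ((volume.restrict (Ioc 0 π)).prod μ) := by
  have := hS.prob
  obtain ⟨h1, D, hD0, hD⟩ := hh
  refine Integrable.of_bound (hF.mul (h1.comp measurable_snd)).aestronglyMeasurable (C * D)
    (Eventually.of_forall fun p => ?_)
  rw [Real.norm_eq_abs, abs_mul]
  exact mul_le_mul (hC p) (hD _) (abs_nonneg _) hC0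

lemma fub (hS : Sys μ c) {F : ℝ × Y → ℝ} (hF : Measurable F) {C : ℝ} (hC0 : 0 ≤ C)
    (hC : ∀ p, |F p| ≤ C) {h : Y → ℝ} (hh : BR h) :
    ∫ φ in (0:ℝ)..π, (∫ y, F (φ, y) * h y ∂μ) = ∫ y, (∫ φ in (0:ℝ)..π, F (φ, y)) * h y ∂μ := by
  have := hS.prob
  simp_rw [intervalIntegral.integral_of_le Real.pi_pos.le]
  rw [integral_integral_swap (f := fun φ y => F (φ, y) * h y) (fub_int hS hF hC0 hC hh)]
  congr 1
  ext y
  rw [integral_mul_const]

lemma key (hS : Sys μ c) (s φ : ℝ) : SS μ c (dg s * kk φ * dg s) =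
    2 * SS μ c (dg s) - 2 * ∫ y, ct c (dg s) (kk φ • y) * ct c (dg s) (kk (-(π / 2)) • y) ∂μ := by
  have := hS.prob
  set A : G := dg s with hA
  have hinv : ∀ y, ct c A (A⁻¹ • y) = - ct c A (kk (-(π / 2)) • y) := by
    intro y
    have h1 := ct_mul hS A A⁻¹ y
    rw [mul_inv_cancel, ct_one hS] at h1
    have h2 : ct c A⁻¹ y = ct c A (kk (-(π / 2)) • y) := by
      rw [hA, dg_inv, ct_mul hS, ct_mul hS, ct_kk hS, ct_kk hS]; ring
    linarith
  have h1 : ∀ y, ct c (A * kk φ * A) y = ct c A (kk φ • (A • y)) + ct c A y := by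
    intro y
    rw [ct_mul hS, ct_mul hS, ct_kk hS]; ring
  have hF : BR (fun y => ct c A (kk φ • y)) := BR.smul hS _ (ct_BR hS A)
  have hFA : BR (fun y => ct c A (kk φ • (A • y))) := BR.smul hS A hF
  have hA' := ct_BR hS A
  have h2 : ∀ y, (ct c A (kk φ • (A • y)) + ct c A y) ^ 2 =
      ct c A (kk φ • (A • y)) ^ 2 + 2 * (ct c A (kk φ • (A • y)) * ct c A y) + ct c A y ^ 2 := by
    intro y; ring
  have e1 : Integrable (fun y => ct c A (kk φ • (A • y)) ^ 2 +
      2 * (ct c A (kk φ • (A • y)) * ct c A y)) μ :=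
    (hFA.sq.integrable μ).add (((hFA.mul hA').integrable μ).const_mul _)
  have h3 : ∫ y, ct c A (kk φ • (A • y)) ^ 2 ∂μ = SS μ c A := by
    rw [integral_smul_eq hS A hF.sq]
    exact integral_smul_eq hS (kk φ) hA'.sq
  have h4 : ∫ y, ct c A (kk φ • (A • y)) * ct c A y ∂μ =
      - ∫ y, ct c A (kk φ • y) * ct c A (kk (-(π / 2)) • y) ∂μ := by
    have h5 := integral_smul_eq hS A (f := fun y => ct c A (kk φ • y) * ct c A (A⁻¹ • y))
      (hF.mul (BR.smul hS _ hA'))
    simp only [inv_smul_smul] at h5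
    rw [h5]
    simp_rw [hinv, mul_neg]
    rw [integral_neg]
  have h6 : SS μ c (A * kk φ * A) = ∫ y, (ct c A (kk φ • (A • y)) ^ 2 +
      2 * (ct c A (kk φ • (A • y)) * ct c A y) + ct c A y ^ 2) ∂μ := by
    unfold SS
    simp_rw [h1, h2]
  rw [h6, integral_add e1 (hA'.sq.integrable μ),
    integral_add (hFA.sq.integrable μ) (((hFA.mul hA').integrable μ).const_mul _),
    integral_const_mul, h3, h4]
  show SS μ c A + 2 * -_ + SS μ c A = _
  ring

lemma kk_smul_per (hS : Sys μ c) (a : ℝ) (y : Y) : kk (a + π) • y = kk a • y := by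
  rw [Pool.Agent.W745.kk_add, kk_pi, mul_smul, hS.neg_smul]

lemma cross_nonneg (hS : Sys μ c) (s : ℝ) :
    0 ≤ ∫ φ in (0:ℝ)..π, (∫ y, ct c (dg s) (kk φ • y) * ct c (dg s) (kk (-(π / 2)) • y) ∂μ) := by
  have := hS.prob
  set A : G := dg s with hA
  have hA' := ct_BR hS A
  obtain ⟨hAm, C, hC0, hC⟩ := ct_BR hS A
  have hFm : Measurable (fun p : ℝ × Y => ct c A (kk p.1 • p.2)) := by
    have h1 : Measurable (fun p : ℝ × Y => ((kk p.1 : G), p.2)) :=
      (kk_continuous.measurable.comp measurable_fst).prodMk measurable_snd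
    exact hAm.comp (hS.smul_meas.comp h1)
  have hFC : ∀ p : ℝ × Y, |ct c A (kk p.1 • p.2)| ≤ C := fun p => hC _
  rw [fub hS (F := fun p : ℝ × Y => ct c A (kk p.1 • p.2)) hFm hC0 hFC
    (BR.smul hS (kk (-(π / 2))) hA')]
  set m : Y → ℝ := fun y => ∫ φ in (0:ℝ)..π, ct c A (kk φ • y) with hm
  have hmB : BR m := by
    refine ⟨?_, C * π, by positivity, fun y => ?_⟩
    · rw [hm]
      simp_rw [intervalIntegral.integral_of_le Real.pi_pos.le]
      exact (hFm.stronglyMeasurable.integral_prod_left' (μ := volume.restrict (Ioc 0 π))).measurable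
    · have h1 : ‖∫ φ in (0:ℝ)..π, ct c A (kk φ • y)‖ ≤ C * |π - 0| :=
        intervalIntegral.norm_integral_le_of_norm_le_const fun a _ => hC _
      rwa [Real.norm_eq_abs, sub_zero, abs_of_pos Real.pi_pos] at h1
  have hmk : ∀ b y, m (kk b • y) = m y := by
    intro b y
    simp only [hm]
    simp_rw [← mul_smul, ← Pool.Agent.W745.kk_add]
    exact shift_avg (f := fun a => ct c A (kk a • y))
      (fun a => by simp only [kk_smul_per hS]) b
  have hinv : ∀ b, ∫ y, m y * ct c A (kk b • y) ∂μ = ∫ y, m y * ct c A y ∂μ := by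
    intro b
    rw [← integral_smul_eq hS (kk b) (hmB.mul hA')]
    simp_rw [hmk]
  show 0 ≤ ∫ y, m y * ct c A (kk (-(π / 2)) • y) ∂μ
  rw [hinv]
  have h1 : ∫ b in (0:ℝ)..π, (∫ y, ct c A (kk b • y) * m y ∂μ) = π * ∫ y, m y * ct c A y ∂μ := by
    have h2 : ∀ b, ∫ y, ct c A (kk b • y) * m y ∂μ = ∫ y, m y * ct c A y ∂μ := by
      intro b
      rw [← hinv b]
      simp_rw [mul_comm]
    simp_rw [h2]
    rw [intervalIntegral.integral_const, sub_zero, smul_eq_mul]
  rw [fub hS (F := fun p : ℝ × Y => ct c A (kk p.1 • p.2)) hFm hC0 hFC hmB] at h1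
  have h3 : 0 ≤ ∫ y, (∫ φ in (0:ℝ)..π, ct c A (kk φ • y)) * m y ∂μ :=
    integral_nonneg fun y => mul_self_nonneg (m y)
  rw [h1] at h3
  exact nonneg_of_mul_nonneg_right h3 Real.pi_pos

lemma cross_int (hS : Sys μ c) (s : ℝ) : IntervalIntegrable
    (fun φ => ∫ y, ct c (dg s) (kk φ • y) * ct c (dg s) (kk (-(π / 2)) • y) ∂μ) volume 0 π := by
  have := hS.prob
  have hA' := ct_BR hS (dg s)
  obtain ⟨hAm, C, hC0, hC⟩ := ct_BR hS (dg s)
  have hFm : Measurable (fun p : ℝ × Y => ct c (dg s) (kk p.1 • p.2)) := by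
    have h1 : Measurable (fun p : ℝ × Y => ((kk p.1 : G), p.2)) :=
      (kk_continuous.measurable.comp measurable_fst).prodMk measurable_snd
    exact hAm.comp (hS.smul_meas.comp h1)
  have hFC : ∀ p : ℝ × Y, |ct c (dg s) (kk p.1 • p.2)| ≤ C := fun p => hC _
  rw [intervalIntegrable_iff, uIoc_of_le Real.pi_pos.le]
  exact (fub_int hS (F := fun p : ℝ × Y => ct c (dg s) (kk p.1 • p.2)) hFm hC0 hFC
    (BR.smul hS (kk (-(π / 2))) hA')).integral_prod_left

lemma dbl (hS : Sys μ c) (x : ℝ) (hx : 1 ≤ x) :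
    (2 * π)⁻¹ * ∫ a in (0 : ℝ)..(2 * π), Psi μ c (x ^ 2 + (x ^ 2 - 1) * Real.cos a)
      ≤ 2 * Psi μ c x := by
  set s : ℝ := arcosh x / 2 with hs
  have hcosh : cosh (2 * s) = x := by
    rw [hs, mul_div_cancel₀ _ (two_ne_zero), Real.cosh_arcosh hx]
  have hPx : Psi μ c x = SS μ c (dg s) := by
    rw [← Psi_hh hS, hh_dg, hcosh]
  have h1 := intervalIntegral.integral_comp_mul_left (a := 0) (b := π)
    (fun a => Psi μ c (x ^ 2 + (x ^ 2 - 1) * Real.cos a)) (two_ne_zero (α := ℝ))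
  rw [mul_zero, smul_eq_mul] at h1
  have h2 : ∫ a in (0 : ℝ)..(2 * π), Psi μ c (x ^ 2 + (x ^ 2 - 1) * Real.cos a) =
      2 * ∫ φ in (0:ℝ)..π, Psi μ c (x ^ 2 + (x ^ 2 - 1) * Real.cos (2 * φ)) := by
    rw [h1]; ring
  rw [h2]
  have h3 : ∀ φ : ℝ, Psi μ c (x ^ 2 + (x ^ 2 - 1) * Real.cos (2 * φ)) =
      2 * SS μ c (dg s) -
        2 * ∫ y, ct c (dg s) (kk φ • y) * ct c (dg s) (kk (-(π / 2)) • y) ∂μ := by
    intro φ
    rw [← key hS, ← Psi_hh hS, hh_dkd, hcosh]
  simp_rw [h3]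
  rw [intervalIntegral.integral_sub intervalIntegrable_const ((cross_int hS s).const_mul 2),
    intervalIntegral.integral_const, intervalIntegral.integral_const_mul, hPx, sub_zero,
    smul_eq_mul]
  have h4 := cross_nonneg hS s
  set I := ∫ φ in (0:ℝ)..π, (∫ y, ct c (dg s) (kk φ • y) * ct c (dg s) (kk (-(π / 2)) • y) ∂μ)
  have h5 : (2 * π)⁻¹ * (2 * (π * (2 * SS μ c (dg s)) - 2 * I)) =
      2 * SS μ c (dg s) - 2 * (π⁻¹ * I) := by
    have := Real.pi_pos.ne'
    field_simp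
  rw [h5]
  have h6 : 0 ≤ π⁻¹ * I := by positivity
  linarith

end main

open Pool.Agent.W314.BA in
theorem main : Grow1Stmt := by
  intro Y _ _ μ c hS
  have := hS.prob
  obtain ⟨V, hV0, hV⟩ := vv_bdd hS
  refine ⟨Psi μ c, 8 * V ^ 2, ⟨?_, ?_, ?_, tri hS, dbl hS⟩, ?_⟩
  · intro t ht
    unfold Psi
    rw [if_pos ht]
    exact SS_nonneg _
  · unfold Psi
    refine Measurable.ite measurableSet_Ici ?_ measurable_const
    have h1 : Measurable (fun t : ℝ => arcosh t / 2) := by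
      unfold arcosh
      fun_prop
    exact (SS_meas hS).comp (dg_continuous.measurable.comp h1)
  · intro T
    obtain ⟨C, hC0, hC⟩ := ct_bdd hS T
    refine ⟨C ^ 2, fun t ht1 htT => ?_⟩
    unfold Psi
    rw [if_pos ht1]
    have hmem : dg (arcosh t / 2) ∈ Bx T := by
      show hh _ ≤ T
      rw [hh_dg, mul_div_cancel₀ _ (two_ne_zero), Real.cosh_arcosh ht1]
      exact htT
    have h1 : ∀ y, ct c (dg (arcosh t / 2)) y ^ 2 ≤ C ^ 2 := by
      intro y
      have := hC _ hmem y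
      exact sq_le_sq' (abs_le.1 this).1 (abs_le.1 this).2
    calc SS μ c (dg (arcosh t / 2)) ≤ ∫ _, C ^ 2 ∂μ :=
          integral_mono ((ct_BR hS _).sq.integrable μ) (integrable_const _) h1
      _ = C ^ 2 := by simp
  · intro g
    rw [Psi_hh hS]
    have h1 : ∀ y, (c g y : ℝ) ^ 2 ≤ 2 * ct c g y ^ 2 + 8 * V ^ 2 := by
      intro y
      have h2 := abs_le.1 (hV (g • y))
      have h3 := abs_le.1 (hV y)
      have h4 : (c g y : ℝ) = ct c g y - (vv c (g • y) - vv c y) := by unfold ct; ring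
      have h5 : (vv c (g • y) - vv c y) ^ 2 ≤ (2 * V) ^ 2 := by
        apply sq_le_sq' <;> linarith [h2.1, h2.2, h3.1, h3.2]
      rw [h4]
      nlinarith [sq_nonneg (ct c g y + (vv c (g • y) - vv c y))]
    have e1 := (ct_BR hS g).sq.integrable μ
    have hcB : BR (fun y => (c g y : ℝ)) := by
      have h2 : Measurable (fun y : Y => (g, y)) := by fun_prop
      obtain ⟨C, hC⟩ := hS.bdd (hh g)
      refine ⟨(measurable_of_countable (fun n : ℤ => (n : ℝ))).comp (hS.c_meas.comp h2),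
        |(C:ℝ)|, abs_nonneg _, fun y => ?_⟩
      have h3 : |(c g y : ℝ)| ≤ C := by exact_mod_cast hC g (show hh g ≤ hh g from le_refl _) y
      exact h3.trans (le_abs_self _)
    calc ∫ y, (c g y : ℝ) ^ 2 ∂μ ≤ ∫ y, (2 * ct c g y ^ 2 + 8 * V ^ 2) ∂μ :=
          integral_mono (hcB.sq.integrable μ) ((e1.const_mul 2).add (integrable_const _)) h1
      _ = 2 * SS μ c g + 8 * V ^ 2 := by
          rw [integral_add (e1.const_mul 2) (integrable_const _), integral_const_mul]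
          simp [SS]

end

end Pool.Agent.W135.BA
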